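import Mathlib

/-!
# A partition cut of an ultrapower of the naturals which is external and a `δ`-set, if `𝔡 = 𝔠`

MP_90cb67_lc, Q1, negated form, if the dominating number is the continuum (in particular under the
continuum hypothesis or Martin's axiom).

The index set `ω` is coded as `ω × ω^(<ω)`: `piF i` is the column of `i` and `ff k i` is the `k`-th
entry of the sequence attached to `i`. A set `B` is `m`-big (`Big`) if for infinitely many `a_(m-1)`,
…, for infinitely many `a_0` there is `i ∈ B` with `ff l i = a_l` for `l < m`; a set `A` is `Good` if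
for every `m` it has `m`-big columns with arbitrarily large numbers. A family of sets all of whose
finite intersections are good (`Fam`) and which has fewer than `𝔡` members can be enlarged by a set
which decides a given set and on which, for a given function `g`, either `g` is bounded on every
column or `ff k ≤ g` for some `k` (`fam_step`, from the dichotomy `Big.dich` in one column). If
`𝔡 = 𝔠` then a recursion of length `𝔠` gives an ultrafilter `F` of sets containing good sets which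
has the last property for all `g`; so the partition cut of the partition into columns is
`⋂ k, {x : x < [ff k]}`, and it is external, since no `ff k` is bounded on the columns of a good
set.
-/

set_option autoImplicit false

namespace Pool.Agent.Results.MP_90cb67_lc.DeltaCut

open Set Filter Cardinal

/-- `S` is an internal subset of `*ℕ = ℕ ^ ω / F`: it is `{[n] : {i : n i ∈ A i} ∈ F}` for some
sequence of sets `A i`. -/
def Internal (F : Ultrafilter ℕ) (S : Set (Germ (F : Filter ℕ) ℕ)) : Prop :=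
  ∃ A : ℕ → Set ℕ, S = {x | ∃ n : ℕ → ℕ, x = (n : Germ (F : Filter ℕ) ℕ) ∧ {i | n i ∈ A i} ∈ F}

/-- `S` is a `δ`-set: the intersection of countably many internal sets. -/
def DeltaSet (F : Ultrafilter ℕ) (S : Set (Germ (F : Filter ℕ) ℕ)) : Prop :=
  ∃ A : ℕ → Set (Germ (F : Filter ℕ) ℕ), (∀ k, Internal F (A k)) ∧ S = ⋂ k, A k

/-- The partition cut `C_P`: the elements with a representative bounded on every `P j`. -/
def cut (F : Ultrafilter ℕ) (P : ℕ → Set ℕ) : Set (Germ (F : Filter ℕ) ℕ) :=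
  {x | ∃ n : ℕ → ℕ, x = (n : Germ (F : Filter ℕ) ℕ) ∧ ∀ j, ∃ b, ∀ i ∈ P j, n i ≤ b}

/-- `P` is a partition of `ω` into countably many small sets. -/
structure IsSmallPartition (F : Ultrafilter ℕ) (P : ℕ → Set ℕ) : Prop where
  disjoint : ∀ j k, j ≠ k → Disjoint (P j) (P k)
  union : ⋃ j, P j = Set.univ
  nonempty : ∀ j, (P j).Nonempty
  small : ∀ j, P j ∉ F

/-- The dominating number `𝔡`: the least cardinality of a family `D` of functions `ω → ω` such that
every function is eventually at most some member of `D`. -/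
noncomputable def dominatingNumber : Cardinal.{0} :=
  sInf {κ | ∃ D : Set (ℕ → ℕ), (∀ h : ℕ → ℕ, ∃ g ∈ D, ∀ᶠ n in atTop, h n ≤ g n) ∧ #D = κ}

section Big

variable (f : ℕ → ℕ → ℕ)

/-- the set `B` is `m`-big: for infinitely many values of `f (m - 1)`, …, for infinitely many
values of `f 0` there is an element of `B` with these values -/
def Big : ℕ → Set ℕ → Prop
  | 0, B => B.Nonempty
  | m + 1, B => {a | Big m (B ∩ {i | f m i = a})}.Infinite

variable {f}

lemma Big.mono {m : ℕ} {B C : Set ℕ} (h : Big f m B) (hBC : B ⊆ C) : Big f m C := by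
  induction m generalizing B C with
  | zero => exact Set.Nonempty.mono hBC h
  | succ m ih =>
    exact Set.Infinite.mono (fun a ha => ih ha (inter_subset_inter_left _ hBC)) h

lemma Big.pred {m : ℕ} {B : Set ℕ} (h : Big f (m + 1) B) : Big f m B := by
  obtain ⟨a, ha⟩ := Set.Infinite.nonempty h
  exact Big.mono ha inter_subset_left

lemma Big.le {m k : ℕ} {B : Set ℕ} (h : Big f m B) (hk : k ≤ m) : Big f k B := by
  induction m with
  | zero =>
    obtain rfl : k = 0 := by omega
    exact h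
  | succ m ih =>
    rcases Nat.lt_or_ge k (m + 1) with h1 | h1
    · exact ih h.pred (by omega)
    · obtain rfl : k = m + 1 := by omega
      exact h

lemma Big.union {m : ℕ} {B C : Set ℕ} (h : Big f m (B ∪ C)) : Big f m B ∨ Big f m C := by
  induction m generalizing B C with
  | zero => exact Set.union_nonempty.1 h
  | succ m ih =>
    have h1 : {a | Big f m ((B ∪ C) ∩ {i | f m i = a})} ⊆
        {a | Big f m (B ∩ {i | f m i = a})} ∪ {a | Big f m (C ∩ {i | f m i = a})} := by
      intro a ha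
      apply ih
      rw [← union_inter_distrib_right]
      exact ha
    exact Set.infinite_union.1 (Set.Infinite.mono h1 h)

lemma Big.split {m : ℕ} {B : Set ℕ} (h : Big f m B) (q : ℕ → Prop) :
    Big f m (B ∩ {i | q i}) ∨ Big f m (B ∩ {i | ¬ q i}) := by
  apply Big.union
  apply h.mono
  intro i hi
  by_cases hq : q i
  · exact Or.inl ⟨hi, hq⟩
  · exact Or.inr ⟨hi, hq⟩

/-- on a big set the function `f k` is unbounded -/
lemma Big.unbounded {m k : ℕ} {B : Set ℕ} (h : Big f m B) (hk : k < m) (b : ℕ) :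
    ∃ i ∈ B, b < f k i := by
  have h1 : Big f (k + 1) B := h.le hk
  obtain ⟨a, ha, hab⟩ := Set.Infinite.exists_gt h1 b
  obtain ⟨i, hi⟩ := (Big.le ha (Nat.zero_le k) : Big f 0 _)
  exact ⟨i, hi.1, by rw [hi.2]; exact hab⟩

/-- the dichotomy in one column -/
lemma Big.dich {m : ℕ} {B : Set ℕ} (h : Big f m B) (g : ℕ → ℕ) :
    (∃ K, Big f m (B ∩ {i | g i < K})) ∨
      ∃ k < m, (∃ K, Big f k (B ∩ {i | g i < K})) ∧
        (k + 1 < m → Big f m (B ∩ {i | f (k + 1) i ≤ g i})) := by
  induction m generalizing B with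
  | zero =>
    left
    obtain ⟨i, hi⟩ := h
    exact ⟨g i + 1, i, hi, Nat.lt_succ_self _⟩
  | succ m ih =>
    set S : Set ℕ := {a | Big f m (B ∩ {i | f m i = a})} with hS
    have hSi : S.Infinite := h
    by_cases h1 : ∃ a ∈ S, ∃ K, Big f m ((B ∩ {i | f m i = a}) ∩ {i | g i < K})
    · right
      obtain ⟨a, -, K, hK⟩ := h1
      refine ⟨m, Nat.lt_succ_self m, ⟨K, hK.mono (inter_subset_inter_left _ inter_subset_left)⟩, ?_⟩
      intro h2
      omega
    · push Not at h1
      right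
      have h2 : ∀ a ∈ S, ∃ k < m, (∃ K, Big f k ((B ∩ {i | f m i = a}) ∩ {i | g i < K})) ∧
          (k + 1 < m → Big f m ((B ∩ {i | f m i = a}) ∩ {i | f (k + 1) i ≤ g i})) := by
        intro a ha
        rcases ih (B := B ∩ {i | f m i = a}) ha with h3 | h3
        · obtain ⟨K, hK⟩ := h3
          exact absurd hK (h1 a ha K)
        · exact h3
      choose! k hk hk1 hk2 using h2
      obtain ⟨c, hcm, hc⟩ : ∃ c < m, {a | a ∈ S ∧ k a = c}.Infinite := by
        by_contra hcon
        push Not at hcon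
        apply hSi
        have hsub : S ⊆ ⋃ c ∈ Set.Iio m, {a | a ∈ S ∧ k a = c} := by
          intro a ha
          exact mem_biUnion (hk a ha) ⟨ha, rfl⟩
        exact ((Set.finite_Iio m).biUnion fun c hc => hcon c hc).subset hsub
      refine ⟨c, by omega, ?_, ?_⟩
      · obtain ⟨a, ha, hac⟩ := hc.nonempty
        obtain ⟨K, hK⟩ := hk1 a ha
        rw [hac] at hK
        exact ⟨K, hK.mono (inter_subset_inter_left _ inter_subset_left)⟩
      · intro _
        apply Set.Infinite.mono _ hc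
        rintro a ⟨ha, hac⟩
        show Big f m ((B ∩ {i | f (c + 1) i ≤ g i}) ∩ {i | f m i = a})
        rcases Nat.lt_or_ge (c + 1) m with h4 | h4
        · have h5 := hk2 a ha (by omega)
          rw [hac] at h5
          apply h5.mono
          rintro i ⟨⟨hi1, hi2⟩, hi3⟩
          exact ⟨⟨hi1, hi3⟩, hi2⟩
        · obtain rfl : m = c + 1 := by omega
          rcases Big.split ha (fun i => g i < a) with h5 | h5
          · exact absurd h5 (h1 a ha a)
          · apply h5.mono
            rintro i ⟨⟨hi1, hi2⟩, hi3⟩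
            have hi2' : f (c + 1) i = a := hi2
            have hi3' : ¬ g i < a := hi3
            refine ⟨⟨hi1, ?_⟩, hi2⟩
            show f (c + 1) i ≤ g i
            omega

end Big

section Good

variable (π : ℕ → ℕ) (f : ℕ → ℕ → ℕ)

/-- the column `j` of `A` -/
def col (A : Set ℕ) (j : ℕ) : Set ℕ := A ∩ {i | π i = j}

/-- for every `m` there are infinitely many `m`-big columns -/
def Good (A : Set ℕ) : Prop := ∀ m N : ℕ, ∃ j, N ≤ j ∧ Big f m (col π A j)

variable {π f}

lemma Good.mono {A B : Set ℕ} (h : Good π f A) (hAB : A ⊆ B) : Good π f B := by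
  intro m N
  obtain ⟨j, hj, hb⟩ := h m N
  exact ⟨j, hj, hb.mono (inter_subset_inter_left _ hAB)⟩

lemma good_nonempty {A : Set ℕ} (hA : Good π f A) : A.Nonempty := by
  obtain ⟨j, -, hb⟩ := hA 0 0
  obtain ⟨i, hi⟩ := (hb : Set.Nonempty _)
  exact ⟨i, hi.1⟩

/-- deciding a set -/
lemma good_decide {A : Set ℕ} (hA : Good π f A) (B : Set ℕ) :
    Good π f (A ∩ B) ∨ Good π f (A ∩ Bᶜ) := by
  by_cases h : Good π f (A ∩ B)
  · exact Or.inl h
  · right
    unfold Good at h
    push Not at h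
    obtain ⟨m, N, hmN⟩ := h
    intro m' N'
    obtain ⟨j, hj, hb⟩ := hA (max m m') (max N N')
    refine ⟨j, le_trans (le_max_right _ _) hj, ?_⟩
    rcases Big.split hb (fun i => i ∈ B) with h1 | h1
    · refine absurd ((h1.le (le_max_left m m')).mono ?_) (hmN j (le_trans (le_max_left _ _) hj))
      rintro i ⟨⟨hi1, hi2⟩, hi3⟩
      exact ⟨⟨hi1, hi3⟩, hi2⟩
    · apply (h1.le (le_max_right m m')).mono
      rintro i ⟨⟨hi1, hi2⟩, hi3⟩
      exact ⟨⟨hi1, hi3⟩, hi2⟩

/-- the requirement for a function `g` -/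
def ReqG (π : ℕ → ℕ) (f : ℕ → ℕ → ℕ) (g : ℕ → ℕ) (A : Set ℕ) : Prop :=
  (∀ j, ∃ b, ∀ i ∈ A, π i = j → g i ≤ b) ∨ ∃ k, ∀ i ∈ A, f k i ≤ g i

/-- fewer than `𝔡 = 𝔠` good sets: a function `g` can be treated for all of them at once -/
lemma good_req {Γ : Set (Set ℕ)} (hinter : ∀ A ∈ Γ, ∀ B ∈ Γ, A ∩ B ∈ Γ)
    (hgood : ∀ A ∈ Γ, Good π f A)
    (hd : ∀ D : Set (ℕ → ℕ), #D ≤ #Γ → ∃ h : ℕ → ℕ, ∀ g ∈ D, ∃ᶠ n in atTop, g n < h n)
    (g : ℕ → ℕ) : ∃ D, (∀ A ∈ Γ, Good π f (A ∩ D)) ∧ ReqG π f g D := by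
  classical
  by_cases h : ∃ k, ∀ A ∈ Γ, Good π f (A ∩ {i | f (k + 1) i ≤ g i})
  · obtain ⟨k, hk⟩ := h
    exact ⟨_, hk, Or.inr ⟨k + 1, fun i hi => hi⟩⟩
  · have h1 : ∀ k, ∃ A ∈ Γ, ∃ m N, ∀ j, N ≤ j →
        ¬ Big f m (col π (A ∩ {i | f (k + 1) i ≤ g i}) j) := by
      intro k
      by_contra hcon
      apply h
      refine ⟨k, fun A hA m N => ?_⟩
      by_contra hc
      apply hcon
      push Not at hc
      exact ⟨A, hA, m, N, fun j hj => hc j hj⟩
    choose E hE m N hmN using h1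
    have hfin : ∀ A ∈ Γ, ∀ n : ℕ, ∃ A' ∈ Γ, A' ⊆ A ∧ ∀ k < n, A' ⊆ E k := by
      intro A hA n
      induction n with
      | zero => exact ⟨A, hA, Subset.rfl, fun k hk => absurd hk (Nat.not_lt_zero k)⟩
      | succ n ih =>
        obtain ⟨A', h2, h3, h4⟩ := ih
        refine ⟨A' ∩ E n, hinter _ h2 _ (hE n), inter_subset_left.trans h3, fun k hk => ?_⟩
        rcases Nat.lt_or_ge k n with h5 | h5
        · exact inter_subset_left.trans (h4 k h5)
        · obtain rfl : k = n := by omega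
          exact inter_subset_right
    have h2 : ∀ A ∈ Γ, ∀ n, ∃ j K, n ≤ j ∧ Big f n (col π A j ∩ {i | g i < K}) := by
      intro A0 hA0 n
      obtain ⟨A, hA, hAA, hAE⟩ := hfin A0 hA0 n
      set M := (Finset.range n).sup m + n + 2 with hM
      obtain ⟨j, hj, hb⟩ := hgood A hA M ((Finset.range n).sup N + n)
      have hsub : ∀ K, col π A j ∩ {i | g i < K} ⊆ col π A0 j ∩ {i | g i < K} := fun K =>
        inter_subset_inter_left _ (inter_subset_inter_left _ hAA)
      rcases hb.dich g with h3 | ⟨k, hkM, h3, h4⟩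
      · obtain ⟨K, hK⟩ := h3
        exact ⟨j, K, by omega, (hK.le (by omega)).mono (hsub K)⟩
      · rcases Nat.lt_or_ge k n with hkn | hkn
        · have hk1 : m k ≤ (Finset.range n).sup m :=
            Finset.le_sup (f := m) (Finset.mem_range.2 hkn)
          have hk2 : N k ≤ (Finset.range n).sup N :=
            Finset.le_sup (f := N) (Finset.mem_range.2 hkn)
          have h5 := (h4 (by omega)).le (show m k ≤ M by omega)
          refine absurd (h5.mono ?_) (hmN k j (by omega))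
          rintro i ⟨⟨hi1, hi2⟩, hi3⟩
          exact ⟨⟨hAE k hkn hi1, hi3⟩, hi2⟩
        · obtain ⟨K, hK⟩ := h3
          exact ⟨j, K, by omega, (hK.le hkn).mono (hsub K)⟩
    choose! j K hj hb using h2
    obtain ⟨b0, hb0⟩ := hd (K '' Γ) Cardinal.mk_image_le
    set b : ℕ → ℕ := fun n => (Finset.range (n + 1)).sup b0 with hbdef
    have hbmono : ∀ n n', n ≤ n' → b n ≤ b n' := fun n n' h =>
      Finset.sup_mono (Finset.range_mono (by omega))
    have hbb : ∀ n, b0 n ≤ b n := fun n =>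
      Finset.le_sup (f := b0) (Finset.mem_range.2 (Nat.lt_succ_self n))
    refine ⟨{i | g i < b (π i)}, ?_, Or.inl ?_⟩
    · intro A hA m' N'
      obtain ⟨n, hn1, hn2⟩ := Filter.frequently_atTop.1 (hb0 (K A) ⟨A, hA, rfl⟩) (max m' N')
      refine ⟨j A n, le_trans (le_trans (le_max_right _ _) hn1) (hj A hA n), ?_⟩
      apply ((hb A hA n).le (le_trans (le_max_left _ _) hn1)).mono
      rintro i ⟨⟨hi1, hi2⟩, hi3⟩
      refine ⟨⟨hi1, ?_⟩, hi2⟩
      show g i < b (π i)
      rw [show π i = j A n from hi2]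
      have h6 : g i < K A n := hi3
      have h7 := hbb n
      have h8 := hbmono n (j A n) (hj A hA n)
      omega
    · intro c
      refine ⟨b c, ?_⟩
      intro i hi hc
      have h6 : g i < b (π i) := hi
      rw [hc] at h6
      omega

/-- all finite intersections are good -/
def Fam (π : ℕ → ℕ) (f : ℕ → ℕ → ℕ) (X : Set (Set ℕ)) : Prop :=
  ∀ s : Finset (Set ℕ), (s : Set (Set ℕ)) ⊆ X → Good π f (⋂₀ (s : Set (Set ℕ)))

/-- the dominating number is the continuum -/
def DomC : Prop := ∀ D : Set (ℕ → ℕ), #D < 𝔠 → ∃ h : ℕ → ℕ, ∀ g ∈ D, ∃ᶠ n in atTop, g n < h n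

lemma fam_step (hd : DomC) {X : Set (Set ℕ)} (hX : #X < 𝔠) (hF : Fam π f X) (B : Set ℕ)
    (g : ℕ → ℕ) : ∃ x, Fam π f (insert x X) ∧ (x ⊆ B ∨ x ⊆ Bᶜ) ∧ ReqG π f g x := by
  classical
  let T : Finset X → Set ℕ := fun s => ⋂₀ ((s.map ⟨Subtype.val, Subtype.val_injective⟩ : Finset (Set ℕ)) : Set (Set ℕ))
  have hT : ∀ s : Finset (Set ℕ), (s : Set (Set ℕ)) ⊆ X → ∃ t : Finset X, T t = ⋂₀ (s : Set (Set ℕ)) := by
    intro s hs
    refine ⟨s.subtype (fun x => x ∈ X), ?_⟩
    show ⋂₀ _ = ⋂₀ _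
    congr 1
    ext y
    simp only [Finset.coe_map, Function.Embedding.coeFn_mk, Set.mem_image, Finset.mem_coe,
      Finset.mem_subtype]
    constructor
    · rintro ⟨z, hz, rfl⟩
      exact hz
    · intro hy
      exact ⟨⟨y, hs hy⟩, hy, rfl⟩
  have hTg : ∀ t : Finset X, Good π f (T t) := by
    intro t
    apply hF
    intro y hy
    simp only [Finset.coe_map, Function.Embedding.coeFn_mk, Set.mem_image, Finset.mem_coe] at hy
    obtain ⟨z, -, rfl⟩ := hy
    exact z.2
  have hTi : ∀ t t' : Finset X, T (t ∪ t') = T t ∩ T t' := by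
    intro t t'
    show ⋂₀ _ = ⋂₀ _ ∩ ⋂₀ _
    rw [← Set.sInter_union]
    congr 1
    simp [Finset.map_union]
  -- decide `B`
  have h1 : ∃ C, (C = B ∨ C = Bᶜ) ∧ ∀ t : Finset X, Good π f (T t ∩ C) := by
    by_contra hcon
    push Not at hcon
    obtain ⟨t, ht⟩ := hcon B (Or.inl rfl)
    obtain ⟨t', ht'⟩ := hcon Bᶜ (Or.inr rfl)
    have h2 := hTg (t ∪ t')
    rw [hTi] at h2
    rcases good_decide h2 B with h3 | h3
    · exact ht (h3.mono (inter_subset_inter_left _ inter_subset_left))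
    · exact ht' (h3.mono (inter_subset_inter_left _ inter_subset_right))
  obtain ⟨C, hC, hCt⟩ := h1
  set Γ : Set (Set ℕ) := Set.range fun t : Finset X => T t ∩ C with hΓ
  have hΓc : #Γ < 𝔠 := by
    refine lt_of_le_of_lt Cardinal.mk_range_le ?_
    rcases finite_or_infinite X with hfin | hinf
    · have : #(Finset X) < ℵ₀ := by
        rw [Cardinal.lt_aleph0_iff_finite]
        infer_instance
      exact this.trans Cardinal.aleph0_lt_continuum
    · rw [Cardinal.mk_finset_of_infinite]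
      exact hX
  obtain ⟨D, hD1, hD2⟩ := good_req (π := π) (f := f) (Γ := Γ) (by
      rintro _ ⟨t, rfl⟩ _ ⟨t', rfl⟩
      refine ⟨t ∪ t', ?_⟩
      show T (t ∪ t') ∩ C = _
      rw [hTi]
      ext i
      simp only [Set.mem_inter_iff]
      tauto) (by
      rintro _ ⟨t, rfl⟩
      exact hCt t) (fun D hD => hd D (hD.trans_lt hΓc)) g
  refine ⟨C ∩ D, ?_, ?_, ?_⟩
  · intro s hs
    obtain ⟨t, ht⟩ := hT (s.erase (C ∩ D)) (by
      intro y hy
      rw [Finset.coe_erase] at hy
      rcases hs hy.1 with h | h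
      · exact absurd h hy.2
      · exact h)
    have h3 := hD1 (T t ∩ C) ⟨t, rfl⟩
    rw [ht] at h3
    apply h3.mono
    rintro i ⟨⟨hi1, hi2⟩, hi3⟩ y hy
    by_cases hyx : y = C ∩ D
    · rw [hyx]
      exact ⟨hi2, hi3⟩
    · exact hi1 y (by
        rw [Finset.coe_erase]
        exact ⟨hy, hyx⟩)
  · rcases hC with rfl | rfl
    · exact Or.inl inter_subset_left
    · exact Or.inr inter_subset_left
  · rcases hD2 with h | ⟨k, hk⟩
    · left
      intro j
      obtain ⟨b, hb⟩ := h j
      exact ⟨b, fun i hi => hb i hi.2⟩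
    · exact Or.inr ⟨k, fun i hi => hk i hi.2⟩

end Good

section Ultra

variable {π : ℕ → ℕ} {f : ℕ → ℕ → ℕ}

/-- the recursion -/
lemma fam_rec {ι : Type} [LinearOrder ι] [WellFoundedLT ι] (hι : ∀ a : ι, #(Set.Iio a) < 𝔠)
    (h0 : Good π f Set.univ) (R : ι → Set ℕ → Prop)
    (hR : ∀ a (X : Set (Set ℕ)), #X < 𝔠 → Fam π f X → ∃ x, Fam π f (insert x X) ∧ R a x) :
    ∃ G : ι → Set ℕ, Fam π f (Set.range G) ∧ ∀ a, R a (G a) := by
  classical
  let step : ∀ a : ι, (∀ b : ι, b < a → Set ℕ) → Set ℕ := fun a F =>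
    if h : ∃ x, Fam π f (insert x {y | ∃ b, ∃ hb : b < a, y = F b hb}) ∧ R a x then h.choose
    else Set.univ
  let G : ι → Set ℕ := (wellFounded_lt (α := ι)).fix step
  have hG : ∀ a, G a = step a (fun b _ => G b) := fun a => (wellFounded_lt (α := ι)).fix_eq step a
  have hset : ∀ a, {y | ∃ b, ∃ _ : b < a, y = G b} = G '' Set.Iio a := by
    intro a
    ext y
    constructor
    · rintro ⟨b, hb, rfl⟩
      exact ⟨b, hb, rfl⟩
    · rintro ⟨b, hb, rfl⟩
      exact ⟨b, hb, rfl⟩
  have hfin : ∀ (U : Set ι) (s : Finset (Set ℕ)), (s : Set (Set ℕ)) ⊆ G '' U →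
      s = ∅ ∨ ∃ b ∈ U, (s : Set (Set ℕ)) ⊆ insert (G b) (G '' Set.Iio b) := by
    intro U s
    induction s using Finset.induction_on with
    | empty => exact fun _ => Or.inl rfl
    | insert y s _ ih =>
      intro hs
      right
      obtain ⟨c, hc, rfl⟩ := hs (Finset.mem_coe.2 (Finset.mem_insert_self _ _))
      have hs' : (s : Set (Set ℕ)) ⊆ G '' U := fun z hz =>
        hs (Finset.mem_coe.2 (Finset.mem_insert_of_mem hz))
      rcases ih hs' with rfl | ⟨b, hb, hsb⟩
      · exact ⟨c, hc, by simp⟩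
      · rcases lt_trichotomy b c with h | h | h
        · refine ⟨c, hc, ?_⟩
          rw [Finset.coe_insert]
          apply Set.insert_subset (Set.mem_insert _ _)
          intro z hz
          rcases hsb hz with rfl | ⟨d, hd, rfl⟩
          · exact Or.inr ⟨b, h, rfl⟩
          · exact Or.inr ⟨d, lt_trans hd h, rfl⟩
        · subst h
          refine ⟨b, hb, ?_⟩
          rw [Finset.coe_insert]
          exact Set.insert_subset (Set.mem_insert _ _) hsb
        · refine ⟨b, hb, ?_⟩
          rw [Finset.coe_insert]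
          exact Set.insert_subset (Or.inr ⟨c, h, rfl⟩) hsb
  have key : ∀ a, Fam π f (insert (G a) (G '' Set.Iio a)) ∧ R a (G a) := by
    intro a
    induction a using WellFoundedLT.induction with
    | ind a ih =>
      have h1 : Fam π f (G '' Set.Iio a) := by
        intro s hs
        rcases hfin _ s hs with rfl | ⟨b, hb, hsb⟩
        · simpa using h0
        · exact (ih b hb).1 s hsb
      have h2 : ∃ x, Fam π f (insert x {y | ∃ b, ∃ _ : b < a, y = G b}) ∧ R a x := by
        rw [hset]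
        exact hR a _ (Cardinal.mk_image_le.trans_lt (hι a)) h1
      have h3 : G a = h2.choose := by
        rw [hG]
        exact dif_pos h2
      have h4 := h2.choose_spec
      rw [← h3, hset] at h4
      exact h4
  refine ⟨G, ?_, fun a => (key a).2⟩
  intro s hs
  rw [← Set.image_univ] at hs
  rcases hfin _ s hs with rfl | ⟨b, -, hsb⟩
  · simpa using h0
  · exact (key b).1 s hsb

theorem exists_ultrafilter (hd : DomC) (h0 : Good π f Set.univ) :
    ∃ F : Ultrafilter ℕ, (∀ B ∈ F, ∃ A, Good π f A ∧ A ⊆ B) ∧ (∀ N, {i | N ≤ π i} ∈ F) ∧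
      ∀ g : ℕ → ℕ, ∃ A ∈ F, ReqG π f g A := by
  classical
  have hcard : #((𝔠 : Cardinal.{0}).ord.ToType) = 𝔠 := Cardinal.mk_ord_toType _
  obtain ⟨e, he⟩ : ∃ e : (𝔠 : Cardinal.{0}).ord.ToType → Set ℕ × (ℕ → ℕ),
      Function.Surjective e := by
    have h1 : #(Set ℕ × (ℕ → ℕ)) ≤ #((𝔠 : Cardinal.{0}).ord.ToType) := by
      rw [hcard, Cardinal.mk_prod, Cardinal.mk_set, Cardinal.mk_arrow]
      simp
    obtain ⟨g⟩ := (Cardinal.le_def _ _).1 h1
    exact ⟨Function.invFun g, Function.invFun_surjective g.injective⟩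
  obtain ⟨G, hG1, hG2⟩ := fam_rec (π := π) (f := f) (ι := (𝔠 : Cardinal.{0}).ord.ToType)
    (fun a => by simpa using Cardinal.mk_Iio_lt a) h0
    (fun a x => (x ⊆ (e a).1 ∨ x ⊆ (e a).1ᶜ) ∧ ReqG π f (e a).2 x)
    (fun a X hX hF => fam_step hd hX hF (e a).1 (e a).2)
  let F0 : Filter ℕ :=
    { sets := {B | ∃ s : Finset (Set ℕ), (s : Set (Set ℕ)) ⊆ Set.range G ∧
        ⋂₀ (s : Set (Set ℕ)) ⊆ B}
      univ_sets := ⟨∅, by simp, Set.subset_univ _⟩
      sets_of_superset := by
        rintro x y ⟨s, hs, hs2⟩ hxy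
        exact ⟨s, hs, hs2.trans hxy⟩
      inter_sets := by
        rintro x y ⟨s, hs, hs2⟩ ⟨t, ht, ht2⟩
        refine ⟨s ∪ t, ?_, ?_⟩
        · rw [Finset.coe_union]
          exact Set.union_subset hs ht
        · rw [Finset.coe_union, Set.sInter_union]
          exact Set.inter_subset_inter hs2 ht2 }
  have hgood : ∀ B ∈ F0, ∃ A, Good π f A ∧ A ⊆ B := by
    rintro B ⟨s, hs, hs2⟩
    exact ⟨_, hG1 s hs, hs2⟩
  have hmem : ∀ a, G a ∈ F0 := fun a => ⟨{G a}, by simp, by simp⟩
  let F : Ultrafilter ℕ := Ultrafilter.ofComplNotMemIff F0 (by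
    intro s
    constructor
    · intro hs
      obtain ⟨a, ha⟩ := he (s, fun _ => 0)
      have h1 := (hG2 a).1
      rw [ha] at h1
      rcases h1 with h | h
      · exact F0.sets_of_superset (hmem a) h
      · exact absurd (F0.sets_of_superset (hmem a) h) hs
    · intro hs hs2
      obtain ⟨A, hA, hA2⟩ := hgood _ (F0.inter_sets hs hs2)
      obtain ⟨i, hi⟩ := good_nonempty hA
      exact (hA2 hi).2 (hA2 hi).1)
  refine ⟨F, fun B hB => hgood B hB, ?_, ?_⟩
  · intro N
    by_contra hcon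
    have h1 : {i | N ≤ π i}ᶜ ∈ F := Ultrafilter.compl_mem_iff_notMem.2 hcon
    obtain ⟨A, hA, hA2⟩ := hgood _ h1
    obtain ⟨j, hj, hb⟩ := hA 0 N
    obtain ⟨i, hi⟩ := (hb : Set.Nonempty _)
    apply hA2 hi.1
    show N ≤ π i
    rw [show π i = j from hi.2]
    exact hj
  · intro g
    obtain ⟨a, ha⟩ := he (Set.univ, g)
    refine ⟨G a, hmem a, ?_⟩
    have h1 := (hG2 a).2
    rw [ha] at h1
    exact h1

end Ultra

section Base

/-- the coding of the index set by pairs of a number (the column) and a finite sequence -/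
noncomputable def cd : ℕ ≃ ℕ × List ℕ := (Denumerable.eqv (ℕ × List ℕ)).symm

/-- the column -/
noncomputable def piF (i : ℕ) : ℕ := (cd i).1

/-- the functions -/
noncomputable def ff (k i : ℕ) : ℕ := (cd i).2.getD k 0

lemma big_base (j m : ℕ) (s : List ℕ) :
    Big ff m {i | piF i = j ∧ ∃ t : List ℕ, t.length = m ∧ (cd i).2 = t ++ s} := by
  induction m generalizing s with
  | zero => exact ⟨cd.symm (j, s), by simp [piF], [], rfl, by simp⟩
  | succ m ih =>
    apply Set.Infinite.mono _ (Set.infinite_univ (α := ℕ))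
    intro a _
    apply (ih (a :: s)).mono
    rintro i ⟨hi, t, ht, h⟩
    refine ⟨⟨hi, t ++ [a], by simp [ht], by rw [h]; simp⟩, ?_⟩
    show ff m i = a
    unfold ff
    rw [h, ← ht]
    simp

lemma good_base : Good piF ff Set.univ := by
  intro m N
  refine ⟨N, le_refl _, (big_base N m []).mono ?_⟩
  rintro i ⟨hi, -⟩
  exact ⟨Set.mem_univ _, hi⟩

end Base

section Final

variable {F : Ultrafilter ℕ}

lemma coe_mem {A : ℕ → Set ℕ} {n : ℕ → ℕ}
    (h : (n : Germ (F : Filter ℕ) ℕ) ∈
      {x : Germ (F : Filter ℕ) ℕ | ∃ n : ℕ → ℕ, x = (n : Germ (F : Filter ℕ) ℕ) ∧ {i | n i ∈ A i} ∈ F}) :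
    {i | n i ∈ A i} ∈ F := by
  obtain ⟨n', h1, h2⟩ := h
  have h3 : {i | n i = n' i} ∈ F := Germ.coe_eq.1 h1
  filter_upwards [h2, h3] with i hi hi'
  show n i ∈ A i
  rw [show n i = n' i from hi']
  exact hi

/-- If `𝔡 = 𝔠` there are a nonprincipal ultrafilter `F` on `ω` and a partition `P` of `ω` into
countably many small sets such that the partition cut `C_P` is external and a `δ`-set. -/
theorem result (hd : dominatingNumber = 𝔠) :
    ∃ F : Ultrafilter ℕ, (∀ n : ℕ, {n} ∉ F) ∧ ∃ P : ℕ → Set ℕ, IsSmallPartition F P ∧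
      ¬ Internal F (cut F P) ∧ DeltaSet F (cut F P) := by
  classical
  have hdc : DomC := by
    intro D hD
    by_contra hcon
    push Not at hcon
    have h1 : dominatingNumber ≤ #D := csInf_le' ⟨D, fun h => by
      obtain ⟨g, hg, hgh⟩ := hcon h
      exact ⟨g, hg, hgh⟩, rfl⟩
    rw [hd] at h1
    exact absurd hD (not_lt.2 h1)
  obtain ⟨F, hF1, hF2, hF3⟩ := exists_ultrafilter hdc good_base
  have hempty : (∅ : Set ℕ) ∉ F := by
    intro h
    obtain ⟨A, hA, hA2⟩ := hF1 _ h
    obtain ⟨i, hi⟩ := good_nonempty hA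
    exact hA2 hi
  have hsmall : ∀ j, {i | piF i = j} ∉ F := by
    intro j hj
    apply hempty
    filter_upwards [hj, hF2 (j + 1)] with i h1 h2
    have h1' : piF i = j := h1
    have h2' : j + 1 ≤ piF i := h2
    omega
  -- a function bounded on the columns is below all `f k`
  have hunb : ∀ (n : ℕ → ℕ), (∀ j, ∃ b, ∀ i ∈ {i | piF i = j}, n i ≤ b) → ∀ k,
      {i | ff k i ≤ n i} ∉ F := by
    intro n hn k hk
    obtain ⟨A, hA, hA2⟩ := hF1 _ hk
    obtain ⟨j, -, hb⟩ := hA (k + 1) 0
    obtain ⟨b, hbn⟩ := hn j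
    obtain ⟨i, hi, hi2⟩ := hb.unbounded (Nat.lt_succ_self k) b
    have h1 : ff k i ≤ n i := hA2 hi.1
    have h2 := hbn i hi.2
    omega
  have hlt : ∀ (n : ℕ → ℕ), (∀ j, ∃ b, ∀ i ∈ {i | piF i = j}, n i ≤ b) → ∀ k,
      {i | n i < ff k i} ∈ F := by
    intro n hn k
    have h1 := Ultrafilter.compl_mem_iff_notMem.2 (hunb n hn k)
    filter_upwards [h1] with i hi
    exact not_le.1 hi
  refine ⟨F, ?_, fun j => {i | piF i = j}, ⟨?_, ?_, ?_, hsmall⟩, ?_, ?_⟩
  · intro n hn
    apply hsmall (piF n)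
    filter_upwards [hn] with i hi
    rw [show i = n from hi]
  · intro j k hjk
    rw [Set.disjoint_left]
    intro i h1 h2
    exact hjk ((show piF i = j from h1).symm.trans h2)
  · ext i
    simp
  · intro j
    exact ⟨cd.symm (j, []), by simp [piF]⟩
  · -- external
    rintro ⟨A, hA⟩
    have hmem : ∀ n : ℕ → ℕ, (n : Germ (F : Filter ℕ) ℕ) ∈ cut F (fun j => {i | piF i = j}) →
        {i | n i ∈ A i} ∈ F := by
      intro n hn
      rw [hA] at hn
      exact coe_mem hn
    have h0 : {i | 0 ∈ A i} ∈ F := hmem (fun _ => 0) ⟨fun _ => 0, rfl, fun j => ⟨0, fun i _ => le_refl 0⟩⟩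
    set M : ℕ → ℕ := fun i => sSup {y | y ≤ ff 0 i ∧ y ∈ A i} with hM
    have hbdd : ∀ i, BddAbove {y | y ≤ ff 0 i ∧ y ∈ A i} := fun i => ⟨ff 0 i, fun y hy => hy.1⟩
    have hM1 : {i | M i ∈ A i} ∈ F := by
      filter_upwards [h0] with i hi
      have hne : {y | y ≤ ff 0 i ∧ y ∈ A i}.Nonempty := ⟨0, Nat.zero_le _, hi⟩
      exact (Nat.sSup_mem hne (hbdd i)).2
    have hMcut : (M : Germ (F : Filter ℕ) ℕ) ∈ cut F (fun j => {i | piF i = j}) := by
      rw [hA]
      exact ⟨M, rfl, hM1⟩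
    obtain ⟨n', h1, h2⟩ := hMcut
    have h3 : {i | M i = n' i} ∈ F := Germ.coe_eq.1 h1
    have h4 : ((fun i => M i + 1 : ℕ → ℕ) : Germ (F : Filter ℕ) ℕ) ∈
        cut F (fun j => {i | piF i = j}) := by
      refine ⟨fun i => n' i + 1, Germ.coe_eq.2 ?_, ?_⟩
      · filter_upwards [h3] with i hi
        rw [show M i = n' i from hi]
      · intro j
        obtain ⟨b, hb⟩ := h2 j
        exact ⟨b + 1, fun i hi => Nat.succ_le_succ (hb i hi)⟩
    have h5 := hmem _ h4
    apply hunb n' h2 0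
    filter_upwards [h3, h5] with i hi hi2
    show ff 0 i ≤ n' i
    rw [← show M i = n' i from hi]
    by_contra hcon
    have h6 : M i + 1 ≤ M i := le_csSup (hbdd i) ⟨by omega, hi2⟩
    omega
  · -- a `δ`-set
    refine ⟨fun k => {x | ∃ n : ℕ → ℕ, x = (n : Germ (F : Filter ℕ) ℕ) ∧
      {i | n i ∈ Set.Iio (ff k i)} ∈ F}, fun k => ⟨fun i => Set.Iio (ff k i), rfl⟩, ?_⟩
    ext x
    rw [Set.mem_iInter]
    constructor
    · rintro ⟨n, rfl, hn⟩ k
      exact ⟨n, rfl, hlt n hn k⟩
    · intro hx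
      induction x using Germ.inductionOn with
      | _ n =>
        have h1 : ∀ k, {i | n i ∈ Set.Iio (ff k i)} ∈ F := fun k => coe_mem (hx k)
        obtain ⟨A, hA, hA2⟩ := hF3 n
        rcases hA2 with h | ⟨k, hk⟩
        · refine ⟨fun i => if i ∈ A then n i else 0, Germ.coe_eq.2 ?_, ?_⟩
          · filter_upwards [hA] with i hi
            simp [hi]
          · intro j
            obtain ⟨b, hb⟩ := h j
            refine ⟨b, fun i hi => ?_⟩
            by_cases hiA : i ∈ A
            · simp only [hiA, if_true]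
              exact hb i hiA hi
            · simp [hiA]
        · exfalso
          apply hempty
          filter_upwards [hA, h1 k] with i hi hi2
          have h3 := hk i hi
          have h4 : n i < ff k i := hi2
          omega

end Final

end Pool.Agent.Results.MP_90cb67_lc.DeltaCut
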